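import Pool.Agent.Lib.MP_3ee548_nt.RS.Iface

/-!
Module INTA of the RS board: dyadic fourth moment of the weighted sum over square roots.
-/

set_option autoImplicit false

open scoped BigOperators
open Classical

namespace Pool.Agent.Lib.MP_3ee548_nt.RS.H23

theorem pow4_le (δ : ℝ) (hδ : 0 < δ) : ∃ C : ℝ, 0 < C ∧ ∀ j : ℕ,
    ((j : ℝ) + 1) ^ 4 ≤ C * ((2 : ℝ) ^ j) ^ δ := by
  have hl : 0 < Real.log 2 := Real.log_pos (by norm_num)
  have hq : 0 < δ * Real.log 2 := mul_pos hδ hl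
  refine ⟨24 * Real.exp (δ * Real.log 2) / (δ * Real.log 2) ^ 4, by positivity, fun j => ?_⟩
  have h1 : (δ * Real.log 2 * ((j : ℝ) + 1)) ^ 4 / (Nat.factorial 4 : ℝ)
      ≤ Real.exp (δ * Real.log 2 * ((j : ℝ) + 1)) :=
    Real.pow_div_factorial_le_exp _ (by positivity) 4
  have h2 : ((2 : ℝ) ^ j) ^ δ = Real.exp (δ * Real.log 2 * j) := by
    rw [← Real.rpow_natCast, ← Real.rpow_mul (by norm_num), Real.rpow_def_of_pos (by norm_num)]
    ring_nf
  have h3 : Real.exp (δ * Real.log 2 * ((j : ℝ) + 1))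
      = Real.exp (δ * Real.log 2) * Real.exp (δ * Real.log 2 * j) := by
    rw [← Real.exp_add]; ring_nf
  have h4 : (Nat.factorial 4 : ℝ) = 24 := by norm_num [Nat.factorial]
  rw [h3, h4, div_le_iff₀ (by norm_num), mul_pow] at h1
  rw [h2, div_mul_eq_mul_div, le_div_iff₀ (by positivity)]
  nlinarith [h1]

theorem geo_sum (c : ℝ) (hc : 0 < c) (M : ℕ) :
    ∑ j ∈ Finset.range M, ((2 : ℝ) ^ j * c) / ((1 + 2 * ((2 : ℝ) ^ j * c)) * (1 + (2 : ℝ) ^ j * c))
      ≤ 1 := by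
  have h : ∀ M : ℕ, ∑ j ∈ Finset.range M,
      ((2 : ℝ) ^ j * c) / ((1 + 2 * ((2 : ℝ) ^ j * c)) * (1 + (2 : ℝ) ^ j * c))
      = ((2 : ℝ) ^ M * c) / (1 + (2 : ℝ) ^ M * c) - c / (1 + c) := by
    intro M
    induction M with
    | zero => simp
    | succ n ih =>
      rw [Finset.sum_range_succ, ih]
      obtain ⟨x, hx⟩ : ∃ x, x = (2 : ℝ) ^ n * c := ⟨_, rfl⟩
      have hx0 : 0 < x := by rw [hx]; positivity
      have e1 : (2 : ℝ) ^ (n + 1) * c = 2 * x := by rw [hx]; ring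
      rw [e1, ← hx]
      have h1 : (1 + x) ≠ 0 := by positivity
      have h2 : (1 + 2 * x) ≠ 0 := by positivity
      have h3 : (1 + c) ≠ 0 := by positivity
      field_simp
      ring
  rw [h M]
  have h1 : ((2 : ℝ) ^ M * c) / (1 + (2 : ℝ) ^ M * c) ≤ 1 := by
    rw [div_le_one (by positivity)]; linarith
  have h2 : 0 ≤ c / (1 + c) := by positivity
  linarith

theorem wt_bound (y a : ℝ) (hy : 0 < y) (ha : 1 ≤ a) (ha4 : a ≤ 4) :
    Real.exp (-(1 / 2 * (y + 1 / y))) * (1 + y ^ 3) * y ^ a ≤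
      (2 * (2 ^ 8 * 40320 * Real.exp (1 / 2))) * (y / ((1 + 2 * y) * (1 + y))) := by
  have hy1 : 0 < 1 + y := by linarith
  have h1 : Real.exp (-(1 / 2 * (y + 1 / y))) ≤ Real.exp (-(y / 2)) := by
    apply Real.exp_le_exp.mpr
    have : 0 < 1 / y := by positivity
    linarith
  have h2 : 1 + y ^ 3 ≤ (1 + y) ^ 3 := by nlinarith [hy, mul_pos hy hy]
  have h3 : y ^ a ≤ y * (1 + y) ^ 3 := by
    have e1 : y ^ a = y * y ^ (a - 1) := by
      rw [← Real.rpow_one_add' hy.le (by linarith)]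
      congr 1; ring
    rw [e1]
    apply mul_le_mul_of_nonneg_left _ hy.le
    calc y ^ (a - 1) ≤ (1 + y) ^ (a - 1) := Real.rpow_le_rpow hy.le (by linarith) (by linarith)
      _ ≤ (1 + y) ^ (3 : ℝ) := Real.rpow_le_rpow_of_exponent_le (by linarith) (by linarith)
      _ = (1 + y) ^ 3 := by norm_cast
  have h4 : (1 + y) ^ 8 * Real.exp (-(y / 2)) ≤ 2 ^ 8 * 40320 * Real.exp (1 / 2) := by
    have g1 : ((1 + y) / 2) ^ 8 / (Nat.factorial 8 : ℝ) ≤ Real.exp ((1 + y) / 2) :=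
      Real.pow_div_factorial_le_exp _ (by positivity) 8
    have g2 : (Nat.factorial 8 : ℝ) = 40320 := by norm_num [Nat.factorial]
    rw [g2, div_le_iff₀ (by norm_num), div_pow] at g1
    have g3 : Real.exp ((1 + y) / 2) = Real.exp (1 / 2) * Real.exp (y / 2) := by
      rw [← Real.exp_add]; ring_nf
    have g4 : Real.exp (y / 2) * Real.exp (-(y / 2)) = 1 := by
      rw [← Real.exp_add]; simp
    rw [g3] at g1
    have g5 : (1 + y) ^ 8 ≤ 2 ^ 8 * 40320 * Real.exp (1 / 2) * Real.exp (y / 2) := by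
      rw [div_le_iff₀ (by norm_num)] at g1
      linarith
    calc (1 + y) ^ 8 * Real.exp (-(y / 2))
        ≤ (2 ^ 8 * 40320 * Real.exp (1 / 2) * Real.exp (y / 2)) * Real.exp (-(y / 2)) :=
          mul_le_mul_of_nonneg_right g5 (Real.exp_pos _).le
      _ = 2 ^ 8 * 40320 * Real.exp (1 / 2) * (Real.exp (y / 2) * Real.exp (-(y / 2))) := by ring
      _ = _ := by rw [g4, mul_one]
  rw [← mul_div_assoc, le_div_iff₀ (by positivity)]
  have hE : 0 < Real.exp (-(y / 2)) := Real.exp_pos _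
  calc Real.exp (-(1 / 2 * (y + 1 / y))) * (1 + y ^ 3) * y ^ a * ((1 + 2 * y) * (1 + y))
      ≤ Real.exp (-(y / 2)) * (1 + y) ^ 3 * (y * (1 + y) ^ 3) * ((2 * (1 + y)) * (1 + y)) := by
        gcongr
        linarith
    _ = 2 * y * ((1 + y) ^ 8 * Real.exp (-(y / 2))) := by ring
    _ ≤ 2 * y * (2 ^ 8 * 40320 * Real.exp (1 / 2)) :=
        mul_le_mul_of_nonneg_left h4 (by positivity)
    _ = _ := by ring

theorem continuous_e : Continuous e := by
  unfold e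
  fun_prop

theorem continuous_SA (k : ℕ) : Continuous (fun t => SA k t) := by
  unfold SA
  refine continuous_finsetSum _ fun m _ => ?_
  exact continuous_const.mul (continuous_e.comp (continuous_id.mul continuous_const))

theorem continuous_Bmax (lam : ℕ → ℝ) (k : ℕ) : Continuous (fun t => Bmax lam k t) := by
  unfold Bmax
  refine continuous_const.mul ?_
  refine continuous_finsetSum _ fun l _ => continuous_finsetSum _ fun j _ => ?_
  refine (continuous_norm.comp ?_).pow 4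
  refine continuous_finsetSum _ fun m _ => ?_
  exact continuous_e.comp (continuous_id.mul continuous_const)

theorem Bmax_nonneg (lam : ℕ → ℝ) (k : ℕ) (t : ℝ) : 0 ≤ Bmax lam k t := by
  unfold Bmax
  refine mul_nonneg (by positivity) ?_
  refine Finset.sum_nonneg fun l _ => Finset.sum_nonneg fun j _ => by positivity

theorem Q_nonneg (lam : ℕ → ℝ) (D : Finset ℕ) (T : ℝ) : 0 ≤ Q lam D T := by
  unfold Q PC
  positivity

/-- the change of variables. -/
theorem int_sq (lam : ℕ → ℝ) (j : ℕ) (τ : ℝ) (hτ : 0 < τ) :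
    ∫ t in τ..(2 * τ), Bmax lam j (t ^ 2 / 4)
      ≤ (2 / τ) * ∫ x in (-(τ ^ 2))..(τ ^ 2), Bmax lam j x := by
  have hB := continuous_Bmax lam j
  have h1 : ∫ t in τ..(2 * τ), Bmax lam j (t ^ 2 / 4)
      ≤ ∫ t in τ..(2 * τ), (2 / τ) * (Bmax lam j (t ^ 2 / 4) * (t / 2)) := by
    apply intervalIntegral.integral_mono_on (by linarith)
    · exact (hB.comp (by fun_prop)).intervalIntegrable _ _
    · refine Continuous.intervalIntegrable ?_ _ _
      exact continuous_const.mul ((hB.comp (by fun_prop)).mul (by fun_prop))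
    · intro t ht
      have ht0 : τ ≤ t := ht.1
      have hb := Bmax_nonneg lam j (t ^ 2 / 4)
      have : 1 ≤ (2 / τ) * (t / 2) := by
        have : (2 / τ) * (t / 2) = t / τ := by field_simp
        rw [this, le_div_iff₀ hτ]; linarith
      calc Bmax lam j (t ^ 2 / 4) = Bmax lam j (t ^ 2 / 4) * 1 := by ring
        _ ≤ Bmax lam j (t ^ 2 / 4) * ((2 / τ) * (t / 2)) := mul_le_mul_of_nonneg_left this hb
        _ = _ := by ring
  have h2 : ∫ t in τ..(2 * τ), Bmax lam j (t ^ 2 / 4) * (t / 2)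
      = ∫ x in (τ ^ 2 / 4)..((2 * τ) ^ 2 / 4), Bmax lam j x := by
    have := intervalIntegral.integral_comp_mul_deriv (a := τ) (b := 2 * τ)
      (f := fun t : ℝ => t ^ 2 / 4) (f' := fun t : ℝ => t / 2) (g := fun x => Bmax lam j x)
      (fun t _ => by
        have := ((hasDerivAt_id t).pow 2).div_const 4
        simp at this
        refine this.congr_deriv ?_
        ring)
      (by fun_prop) hB
    simpa [Function.comp] using this
  have h3 : ∫ x in (τ ^ 2 / 4)..((2 * τ) ^ 2 / 4), Bmax lam j x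
      ≤ ∫ x in (-(τ ^ 2))..(τ ^ 2), Bmax lam j x := by
    apply intervalIntegral.integral_mono_interval
    · have : 0 < τ ^ 2 := by positivity
      linarith
    · have : 0 < τ ^ 2 := by positivity
      nlinarith
    · nlinarith
    · exact Filter.Eventually.of_forall (fun x => Bmax_nonneg lam j x)
    · exact hB.intervalIntegrable _ _
  rw [intervalIntegral.integral_const_mul, h2] at h1
  exact h1.trans (mul_le_mul_of_nonneg_left h3 (by positivity))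

theorem Qrcp_bound (h3 : CovStatement) (b δ C4 : ℝ)
    (hQ : ∀ k : ℕ, Q rcp (blk k) (((2 : ℝ) ^ k) ^ (3 : ℝ)) ≤ C4 * ((2 : ℝ) ^ k) ^ (b + δ))
    (j : ℕ) (T : ℝ) (hT : 0 < T) :
    Q rcp (blk j) T ≤ 4 * (1 + ((2 : ℝ) ^ j) ^ 3 / T) * (C4 * ((2 : ℝ) ^ j) ^ (b + δ)) := by
  have e3 : ((2 : ℝ) ^ j) ^ (3 : ℝ) = ((2 : ℝ) ^ j) ^ 3 := by norm_cast
  have h := h3 (ℕ × ℕ) (fun p : ℕ × ℕ => rcp p.1 + rcp p.2) (blk j ×ˢ blk j) T
    (((2 : ℝ) ^ j) ^ (3 : ℝ)) hT (by positivity)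
  have h' := hQ j
  have hc : 0 ≤ 4 * (1 + ((2 : ℝ) ^ j) ^ (3 : ℝ) / T) := by positivity
  calc Q rcp (blk j) T ≤ 4 * (1 + ((2 : ℝ) ^ j) ^ (3 : ℝ) / T) *
        Q rcp (blk j) (((2 : ℝ) ^ j) ^ (3 : ℝ)) := h
    _ ≤ 4 * (1 + ((2 : ℝ) ^ j) ^ (3 : ℝ) / T) * (C4 * ((2 : ℝ) ^ j) ^ (b + δ)) :=
        mul_le_mul_of_nonneg_left h' hc
    _ = _ := by rw [e3]

theorem exp_cmp (c τ t : ℝ) (hc : 0 < c) (hτ : 0 < τ) (h1 : τ ≤ t) (h2 : t ≤ 2 * τ) :
    Real.exp (-(c / t + t / c)) ≤ Real.exp (-(1 / 2 * (c / τ + 1 / (c / τ)))) := by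
  apply Real.exp_le_exp.mpr
  have ht : 0 < t := lt_of_lt_of_le hτ h1
  have g1 : 1 / 2 * (c / τ) ≤ c / t := by
    have : 1 / 2 * (c / τ) = c / (2 * τ) := by field_simp
    rw [this]
    exact div_le_div_of_nonneg_left hc.le ht h2
  have g2 : 1 / (c / τ) ≤ t / c := by
    rw [one_div_div]
    exact div_le_div_of_nonneg_right h1 hc.le
  have g3 : 0 < 1 / (c / τ) := by positivity
  linarith

theorem inta (h1 : CaseaStatement) (h2 : MaxbStatement) (h3 : CovStatement) : IntaStatement := by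
  intro b hb2 hb3 hPB ε hε
  obtain ⟨C1, hC1, hA⟩ := h1
  obtain ⟨C3, hC3, hM⟩ := h2
  obtain ⟨δ, hδdef⟩ : ∃ δ, δ = min ε 1 / 2 := ⟨_, rfl⟩
  have hm1 : min ε 1 ≤ ε := min_le_left _ _
  have hm2 : min ε 1 ≤ 1 := min_le_right _ _
  have hm3 : 0 < min ε 1 := lt_min hε one_pos
  have hδ : 0 < δ := by rw [hδdef]; linarith
  have hδε : 2 * δ ≤ ε := by rw [hδdef]; linarith
  have hδ1 : 2 * δ ≤ 1 := by rw [hδdef]; linarith
  obtain ⟨C4, hC4, hQ⟩ := hPB δ hδ
  obtain ⟨C2, hC2, hP⟩ := pow4_le δ hδ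
  obtain ⟨W, hW⟩ : ∃ W : ℝ, W = 2 * (2 ^ 8 * 40320 * Real.exp (1 / 2)) := ⟨_, rfl⟩
  have hW0 : 0 < W := by rw [hW]; positivity
  refine ⟨C1 * (1 + 8 * C2 * C3 * C4 * W), by positivity, fun k τ hτ1 hτ2 => ?_⟩
  obtain ⟨K, hK⟩ : ∃ K : ℝ, K = (2 : ℝ) ^ k := ⟨_, rfl⟩
  have hK1 : 1 ≤ K := by rw [hK]; exact one_le_pow₀ (by norm_num)
  have hK0 : 0 < K := by linarith
  have hA' := hA k
  rw [← hK] at hτ1 hτ2 hA' ⊢
  obtain ⟨R, hR⟩ : ∃ R : ℝ, R = Real.sqrt K := ⟨_, rfl⟩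
  have hR1 : 1 ≤ R := by rw [hR]; exact Real.one_le_sqrt.mpr hK1
  have hR0 : 0 < R := by linarith
  have hRK : R ^ 2 = K := by rw [hR]; exact Real.sq_sqrt hK0.le
  have hRr : R = K ^ (1 / 2 : ℝ) := by rw [hR]; exact Real.sqrt_eq_rpow K
  rw [← hR] at hτ1 hA'
  have hτ0 : 0 < τ := by linarith
  -- the numbers y
  obtain ⟨y, hy⟩ : ∃ y : ℕ → ℝ, y = fun j => (2 : ℝ) ^ (j + 1) * R / τ := ⟨_, rfl⟩
  have hy0 : ∀ j, 0 < y j := by intro j; rw [hy]; positivity
  obtain ⟨E, hE⟩ : ∃ E : ℕ → ℝ, E = fun j => Real.exp (-(1 / 2 * (y j + 1 / y j))) := ⟨_, rfl⟩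
  have hE0 : ∀ j, 0 < E j := by intro j; rw [hE]; exact Real.exp_pos _
  -- pointwise
  have hpt : ∀ t ∈ Set.Icc τ (2 * τ), ‖SA k t‖ ^ 4 ≤ C1 * (1 + K ^ 3 / τ ^ 2 *
      ∑ j ∈ Finset.range (2 * k + 2), E j * Bmax rcp j (t ^ 2 / 4)) := by
    intro t ht
    have ht1 : τ ≤ t := ht.1
    have ht2 : t ≤ 2 * τ := ht.2
    have ht0 : 0 < t := by linarith
    refine (hA' t (by linarith) (by linarith)).trans ?_
    apply mul_le_mul_of_nonneg_left _ hC1.le
    have g1 : K ^ 3 / t ^ 2 ≤ K ^ 3 / τ ^ 2 :=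
      div_le_div_of_nonneg_left (by positivity) (by positivity) (pow_le_pow_left₀ hτ0.le ht1 2)
    have g2 : ∑ j ∈ Finset.range (2 * k + 2),
        Real.exp (-((2 : ℝ) ^ (j + 1) * R / t + t / ((2 : ℝ) ^ (j + 1) * R)))
          * Bmax rcp j (t ^ 2 / 4)
        ≤ ∑ j ∈ Finset.range (2 * k + 2), E j * Bmax rcp j (t ^ 2 / 4) := by
      apply Finset.sum_le_sum
      intro j _
      apply mul_le_mul_of_nonneg_right _ (Bmax_nonneg rcp j _)
      rw [hE, hy]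
      exact exp_cmp ((2 : ℝ) ^ (j + 1) * R) τ t (by positivity) hτ0 ht1 ht2
    have g3 : 0 ≤ ∑ j ∈ Finset.range (2 * k + 2), E j * Bmax rcp j (t ^ 2 / 4) :=
      Finset.sum_nonneg fun j _ => mul_nonneg (hE0 j).le (Bmax_nonneg rcp j _)
    have g4 : K ^ 3 / t ^ 2 * ∑ j ∈ Finset.range (2 * k + 2),
        Real.exp (-((2 : ℝ) ^ (j + 1) * R / t + t / ((2 : ℝ) ^ (j + 1) * R)))
          * Bmax rcp j (t ^ 2 / 4)
        ≤ K ^ 3 / τ ^ 2 * ∑ j ∈ Finset.range (2 * k + 2), E j * Bmax rcp j (t ^ 2 / 4) :=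
      (mul_le_mul_of_nonneg_left g2 (by positivity)).trans (mul_le_mul_of_nonneg_right g1 g3)
    linarith
  -- integrate
  have hcB : ∀ j, Continuous (fun t : ℝ => Bmax rcp j (t ^ 2 / 4)) := fun j =>
    (continuous_Bmax rcp j).comp (by fun_prop)
  have hint : ∫ t in τ..(2 * τ), ‖SA k t‖ ^ 4 ≤ C1 * (τ + K ^ 3 / τ ^ 2 *
      ∑ j ∈ Finset.range (2 * k + 2), E j * ∫ t in τ..(2 * τ), Bmax rcp j (t ^ 2 / 4)) := by
    have g1 : ∫ t in τ..(2 * τ), ‖SA k t‖ ^ 4 ≤ ∫ t in τ..(2 * τ), C1 * (1 + K ^ 3 / τ ^ 2 *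
        ∑ j ∈ Finset.range (2 * k + 2), E j * Bmax rcp j (t ^ 2 / 4)) := by
      apply intervalIntegral.integral_mono_on (by linarith)
      · exact ((continuous_norm.comp (continuous_SA k)).pow 4).intervalIntegrable _ _
      · refine Continuous.intervalIntegrable ?_ _ _
        refine continuous_const.mul (continuous_const.add (continuous_const.mul ?_))
        exact continuous_finsetSum _ fun j _ => continuous_const.mul (hcB j)
      · exact hpt
    refine g1.trans (le_of_eq ?_)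
    rw [intervalIntegral.integral_const_mul, intervalIntegral.integral_add,
      intervalIntegral.integral_const_mul, intervalIntegral.integral_finsetSum]
    · simp only [intervalIntegral.integral_const_mul, intervalIntegral.integral_const,
        smul_eq_mul, mul_one]
      congr 2
      ring
    · intro j _
      exact (continuous_const.mul (hcB j)).intervalIntegrable _ _
    · exact continuous_const.intervalIntegrable _ _
    · refine Continuous.intervalIntegrable ?_ _ _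
      refine continuous_const.mul ?_
      exact continuous_finsetSum _ fun j _ => continuous_const.mul (hcB j)
  refine hint.trans ?_
  -- each block
  have hblock : ∀ j, E j * (∫ t in τ..(2 * τ), Bmax rcp j (t ^ 2 / 4)) ≤
      (8 * C2 * C3 * C4 * τ * (τ / R) ^ (b + 2 * δ)) *
        (W * (((2 : ℝ) ^ j * (2 * R / τ)) /
          ((1 + 2 * ((2 : ℝ) ^ j * (2 * R / τ))) * (1 + (2 : ℝ) ^ j * (2 * R / τ))))) := by
    intro j
    have hyj : (2 : ℝ) ^ j * (2 * R / τ) = y j := by rw [hy]; ring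
    rw [hyj]
    obtain ⟨P, hPd⟩ : ∃ P : ℝ, P = (2 : ℝ) ^ j := ⟨_, rfl⟩
    have hP0 : 0 < P := by rw [hPd]; positivity
    have a1 : ∫ t in τ..(2 * τ), Bmax rcp j (t ^ 2 / 4)
        ≤ (2 / τ) * (C3 * ((j : ℝ) + 1) ^ 4 * τ ^ 2 * Q rcp (blk j) (τ ^ 2)) :=
      (int_sq rcp j τ hτ0).trans
        (mul_le_mul_of_nonneg_left (hM rcp j (τ ^ 2) (by positivity)) (by positivity))
    have a2 := Qrcp_bound h3 b δ C4 hQ j (τ ^ 2) (by positivity)
    rw [← hPd] at a2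
    have a3 := hP j
    rw [← hPd] at a3
    have hyP : y j = 2 * P * R / τ := by rw [hy, hPd]; ring
    -- P^3/τ^2 ≤ y^3
    have a4 : P ^ 3 / τ ^ 2 ≤ y j ^ 3 := by
      have hτ3 : τ ≤ R ^ 3 := by
        have : K ^ (3 / 2 : ℝ) = R ^ 3 := by
          rw [hRr, ← Real.rpow_natCast, ← Real.rpow_mul hK0.le]; norm_num
        rw [← this]; exact hτ2
      rw [hyP, div_pow, div_le_div_iff₀ (by positivity) (by positivity)]
      have : P ^ 3 * τ ^ 3 = (P ^ 3 * τ ^ 2) * τ := by ring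
      rw [this]
      calc (P ^ 3 * τ ^ 2) * τ ≤ (P ^ 3 * τ ^ 2) * R ^ 3 :=
            mul_le_mul_of_nonneg_left hτ3 (by positivity)
        _ ≤ 8 * ((P ^ 3 * τ ^ 2) * R ^ 3) := by
            have : 0 ≤ (P ^ 3 * τ ^ 2) * R ^ 3 := by positivity
            linarith
        _ = (2 * P * R) ^ 3 * τ ^ 2 := by ring
    -- power of P
    have a5 : P ^ (b + 2 * δ) ≤ y j ^ (b + 2 * δ) * (τ / R) ^ (b + 2 * δ) := by
      rw [← Real.mul_rpow (hy0 j).le (by positivity)]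
      apply Real.rpow_le_rpow hP0.le _ (by linarith)
      have : y j * (τ / R) = 2 * P := by rw [hyP]; field_simp
      rw [this]; linarith
    have a6 : P ^ δ * P ^ (b + δ) = P ^ (b + 2 * δ) := by
      rw [← Real.rpow_add hP0]; congr 1; ring
    have a7 := wt_bound (y j) (b + 2 * δ) (hy0 j) (by linarith) (by linarith)
    rw [← hW] at a7
    have hQ0 := Q_nonneg rcp (blk j) (τ ^ 2)
    have hj4 : (0 : ℝ) ≤ ((j : ℝ) + 1) ^ 4 := by positivity
    have hEj := hE0 j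
    calc E j * (∫ t in τ..(2 * τ), Bmax rcp j (t ^ 2 / 4))
        ≤ E j * ((2 / τ) * (C3 * ((j : ℝ) + 1) ^ 4 * τ ^ 2 * Q rcp (blk j) (τ ^ 2))) :=
          mul_le_mul_of_nonneg_left a1 hEj.le
      _ ≤ E j * ((2 / τ) * (C3 * (C2 * P ^ δ) * τ ^ 2 *
            (4 * (1 + P ^ 3 / τ ^ 2) * (C4 * P ^ (b + δ))))) := by
          gcongr
      _ ≤ E j * ((2 / τ) * (C3 * (C2 * P ^ δ) * τ ^ 2 *
            (4 * (1 + y j ^ 3) * (C4 * P ^ (b + δ))))) := by
          gcongr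
      _ = (8 * C2 * C3 * C4 * τ) * (E j * (1 + y j ^ 3) * (P ^ δ * P ^ (b + δ))) := by
          field_simp
          ring
      _ = (8 * C2 * C3 * C4 * τ) * (E j * (1 + y j ^ 3) * P ^ (b + 2 * δ)) := by rw [a6]
      _ ≤ (8 * C2 * C3 * C4 * τ) * (E j * (1 + y j ^ 3) *
            (y j ^ (b + 2 * δ) * (τ / R) ^ (b + 2 * δ))) := by
          have := hy0 j
          gcongr
      _ = (8 * C2 * C3 * C4 * τ * (τ / R) ^ (b + 2 * δ)) *
            (E j * (1 + y j ^ 3) * y j ^ (b + 2 * δ)) := by ring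
      _ ≤ _ := by
          apply mul_le_mul_of_nonneg_left _ (by positivity)
          rw [hE]
          exact a7
  have hsum : ∑ j ∈ Finset.range (2 * k + 2), E j * (∫ t in τ..(2 * τ), Bmax rcp j (t ^ 2 / 4))
      ≤ (8 * C2 * C3 * C4 * τ * (τ / R) ^ (b + 2 * δ)) * W := by
    refine (Finset.sum_le_sum fun j _ => hblock j).trans ?_
    rw [← Finset.mul_sum, ← Finset.mul_sum]
    have := geo_sum (2 * R / τ) (by positivity) (2 * k + 2)
    apply mul_le_mul_of_nonneg_left _ (by positivity)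
    calc W * _ ≤ W * 1 := mul_le_mul_of_nonneg_left this hW0.le
      _ = W := mul_one W
  -- powers
  have hpow : K ^ 3 / τ ^ 2 * (τ * (τ / R) ^ (b + 2 * δ)) ≤ K ^ ε * (K ^ (3 - b / 2) * τ ^ (b - 1)) := by
    have hq0 : 0 < τ / R := by positivity
    have q1 : (τ / R) ^ (b + 2 * δ) = (τ / R) ^ b * (τ / R) ^ (2 * δ) := Real.rpow_add hq0 _ _
    have q2 : (τ / R) ^ (2 * δ) ≤ K ^ ε := by
      have hle : τ / R ≤ K := by
        rw [div_le_iff₀ hR0, hRr]
        have : K * K ^ (1 / 2 : ℝ) = K ^ (3 / 2 : ℝ) := by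
          nth_rewrite 1 [← Real.rpow_one K]
          rw [← Real.rpow_add hK0]; norm_num
        rw [this]; exact hτ2
      calc (τ / R) ^ (2 * δ) ≤ K ^ (2 * δ) := Real.rpow_le_rpow hq0.le hle (by linarith)
        _ ≤ K ^ ε := Real.rpow_le_rpow_of_exponent_le hK1 hδε
    have q3 : (τ / R) ^ b = τ ^ b / K ^ (b / 2) := by
      rw [Real.div_rpow hτ0.le hR0.le, hRr, ← Real.rpow_mul hK0.le]
      congr 2; ring
    have q4 : K ^ 3 / τ ^ 2 * (τ * (τ ^ b / K ^ (b / 2))) = K ^ (3 - b / 2) * τ ^ (b - 1) := by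
      rw [Real.rpow_sub hK0, Real.rpow_sub hτ0, Real.rpow_one]
      have : K ^ (3 : ℝ) = K ^ 3 := by norm_cast
      rw [this]
      have : K ^ (b / 2) ≠ 0 := (Real.rpow_pos_of_pos hK0 _).ne'
      field_simp
    calc K ^ 3 / τ ^ 2 * (τ * (τ / R) ^ (b + 2 * δ))
        = (K ^ 3 / τ ^ 2 * (τ * (τ ^ b / K ^ (b / 2)))) * (τ / R) ^ (2 * δ) := by
          rw [q1, q3]; ring
      _ ≤ (K ^ 3 / τ ^ 2 * (τ * (τ ^ b / K ^ (b / 2)))) * K ^ ε := by
          apply mul_le_mul_of_nonneg_left q2 (by positivity)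
      _ = _ := by rw [q4]; ring
  have hKε : 1 ≤ K ^ ε := Real.one_le_rpow hK1 hε.le
  obtain ⟨Z, hZ⟩ : ∃ Z : ℝ, Z = K ^ (3 - b / 2) * τ ^ (b - 1) := ⟨_, rfl⟩
  have hZ0 : 0 ≤ Z := by rw [hZ]; positivity
  rw [← hZ] at hpow ⊢
  have hfin : K ^ 3 / τ ^ 2 * ∑ j ∈ Finset.range (2 * k + 2),
      E j * (∫ t in τ..(2 * τ), Bmax rcp j (t ^ 2 / 4)) ≤ 8 * C2 * C3 * C4 * W * (K ^ ε * Z) := by
    calc _ ≤ K ^ 3 / τ ^ 2 * ((8 * C2 * C3 * C4 * τ * (τ / R) ^ (b + 2 * δ)) * W) :=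
          mul_le_mul_of_nonneg_left hsum (by positivity)
      _ = (8 * C2 * C3 * C4 * W) * (K ^ 3 / τ ^ 2 * (τ * (τ / R) ^ (b + 2 * δ))) := by ring
      _ ≤ _ := mul_le_mul_of_nonneg_left hpow (by positivity)
  have hG : 0 ≤ 8 * C2 * C3 * C4 * W := by positivity
  calc C1 * (τ + _) ≤ C1 * (τ + 8 * C2 * C3 * C4 * W * (K ^ ε * Z)) := by
        apply mul_le_mul_of_nonneg_left _ hC1.le
        linarith
    _ ≤ C1 * ((1 + 8 * C2 * C3 * C4 * W) * K ^ ε * (τ + Z)) := by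
        apply mul_le_mul_of_nonneg_left _ hC1.le
        have e1 : 0 ≤ (K ^ ε - 1) * τ := mul_nonneg (by linarith) hτ0.le
        have e2 : 0 ≤ 8 * C2 * C3 * C4 * W * (K ^ ε * τ) := by positivity
        have e3 : 0 ≤ K ^ ε * Z := by positivity
        nlinarith [e1, e2, e3]
    _ = _ := by ring

end Pool.Agent.Lib.MP_3ee548_nt.RS.H23
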